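import Pool.Agent.H16R.TR.Gen

/-!
The iterates of the pair: every degree, and growth.
-/

set_option autoImplicit false

namespace Pool.Agent.H16R.TR

open Nat.Partrec (Code)
open Encodable
open Pool.Agent.H639.LU Pool.Agent.H869R3.FN Pool.Agent.Y579.PP
open Pool.Agent.Helper446.Defs Pool.Agent.Helper446.Oracle

section
variable {G : (ℕ → Bool) → ℕ → Bool} {D : Set (ℕ → Bool)} {i j : Code}

theorem FlipSuff.mono {k k' : ℕ} (h : FlipSuff G D k) (hk : k ≤ k') : FlipSuff G D k' := by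
  obtain ⟨L, h1, h2⟩ := h
  exact ⟨L, h1.trans hk, h2⟩

theorem ItSuff.mono {k k' n : ℕ} (h : ItSuff i j G D k n) (hk : k ≤ k') : ItSuff i j G D k' n := by
  obtain ⟨L, h1, h2⟩ := h
  exact ⟨L, h1.trans hk, h2⟩

theorem FlipSuff.sub {k : ℕ} {D' : Set (ℕ → Bool)} (h : FlipSuff G D k) (hD : D' ⊆ D) :
    FlipSuff G D' k := by
  obtain ⟨L, h1, h2⟩ := h
  exact ⟨L, h1, fun X hX => h2 X (hD hX)⟩

theorem ItSuff.sub {k n : ℕ} {D' : Set (ℕ → Bool)} (h : ItSuff i j G D k n) (hD : D' ⊆ D) :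
    ItSuff i j G D' k n := by
  obtain ⟨L, h1, h2⟩ := h
  exact ⟨L, h1, fun X hX => h2 X (hD hX)⟩

theorem it_pow (hD : Inv D) {K : ℕ} (h : ItSuff i j G D K 1) (n : ℕ) :
    ItSuff i j G D ((2 * K) ^ n) n := by
  classical
  obtain ⟨κ, -, hκ⟩ := K7
  induction n with
  | zero =>
    obtain ⟨d, hd⟩ := exists_id
    refine ⟨{d}, by simp, fun X _ Y hXY => ?_⟩
    have h' : X = Y := hXY
    subst h'
    exact ⟨⟨d, by simp, hd _⟩, ⟨d, by simp, hd _⟩⟩
  | succ n ih =>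
    obtain ⟨L, h1, h2⟩ := ih
    obtain ⟨L', h1', h2'⟩ := h
    refine ⟨(L ×ˢ L').image κ ∪ (L' ×ˢ L).image κ, ?_, fun X hX Y hXY => ?_⟩
    · refine (Finset.card_union_le _ _).trans ?_
      have e1 : ((L ×ˢ L').image κ).card ≤ (2 * K) ^ n * K := by
        refine Finset.card_image_le.trans ?_
        rw [Finset.card_product]
        exact Nat.mul_le_mul h1 h1'
      have e2 : ((L' ×ˢ L).image κ).card ≤ (2 * K) ^ n * K := by
        refine Finset.card_image_le.trans ?_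
        rw [Finset.card_product, mul_comm]
        exact Nat.mul_le_mul h1 h1'
      calc ((L ×ˢ L').image κ).card + ((L' ×ˢ L).image κ).card
          ≤ (2 * K) ^ n * K + (2 * K) ^ n * K := by omega
        _ = (2 * K) ^ (n + 1) := by ring
    · obtain ⟨Z, g1, g2, g3⟩ := hXY
      have hZ : Z ∈ D := hD X hX Z g1.le.1 g1.le.2
      obtain ⟨⟨l, hl, hl'⟩, ⟨m, hm, hm'⟩⟩ := h2 X hX Z g1
      obtain ⟨⟨a, ha, ha'⟩, ⟨b, hb, hb'⟩⟩ := h2' Z hZ Y (It.one g2 g3)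
      refine ⟨⟨κ (l, a), Finset.mem_union_left _ (Finset.mem_image.2
        ⟨(l, a), Finset.mem_product.2 ⟨hl, ha⟩, rfl⟩), hκ _ _ _ _ _ hl' ha'⟩,
        ⟨κ (b, m), Finset.mem_union_right _ (Finset.mem_image.2
        ⟨(b, m), Finset.mem_product.2 ⟨hb, hm⟩, rfl⟩), hκ _ _ _ _ _ hb' hm'⟩⟩

/-- finite lists for the flips and for the pair give finite lists for all pairs -/
theorem fin_all (hp : Pair i j) (hD : Inv D) {k : ℕ} (h1 : FlipSuff G D k)
    (h2 : ItSuff i j G D k 1) (i' j' : Code) :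
    ∃ L : Finset Code, ∀ X ∈ D, ∀ Y, Red i' X Y → Red j' Y X → ∃ l ∈ L, Red l (G X) (G Y) := by
  set N := max 1 (max (2 * encode i') (2 * encode j' + 1)) with hN
  set K := max (k + 1) ((2 * (k + 1)) ^ N) with hK
  have h2' : ItSuff i j G D (k + 1) 1 := h2.mono (Nat.le_succ k)
  have h3 : ∀ n ∈ {n | n ≤ N}, ItSuff i j G D K n := fun n hn =>
    (it_pow hD h2' n).mono ((Nat.pow_le_pow_right (by omega) hn).trans (le_max_right _ _))
  have h4 : FlipSuff G D K := h1.mono ((Nat.le_succ k).trans (le_max_left _ _))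
  have hK1 : 1 ≤ K := (by omega : 1 ≤ k + 1).trans (le_max_left _ _)
  have e1 : 1 ≤ N := le_max_left _ _
  have e2 : 2 * encode i' ≤ N := (le_max_left _ _).trans (le_max_right _ _)
  have e3 : 2 * encode j' + 1 ≤ N := (le_max_right _ _).trans (le_max_right _ _)
  obtain ⟨L, -, hL⟩ := few_pair hp hD hK1 h4 h3 i' j' e1 e2 e3
  exact ⟨L, hL⟩

/-- few programs for an iterate give few programs for a label -/
theorem pf_few (hp : Pair i j) (hD : Inv D) {K n : ℕ} (hK : 1 ≤ K) (h1 : FlipSuff G D K)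
    (h2 : ItSuff i j G D K 1) (h3 : ItSuff i j G D K n) :
    ∃ M : Finset Code, M.card ≤ 4 * K ^ 22 ∧ ∀ X ∈ D,
      (∃ l ∈ M, Red l (G X) (G (pf n X))) ∧ ∃ l ∈ M, Red l (G (pf n X)) (G X) := by
  classical
  have h4 : ∀ m ∈ ({1, n} : Set ℕ), ItSuff i j G D K m := by
    rintro m (rfl | rfl)
    · exact h2
    · exact h3
  have key : ∀ b : Bool, ∃ M : Finset Code, M.card ≤ 2 * K ^ 22 ∧ ∀ X ∈ D, X 0 = b →
      (∃ l ∈ M, Red l (G X) (G (pf n X))) ∧ ∃ l ∈ M, Red l (G (pf n X)) (G X) := by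
    intro b
    let α := {X : ℕ → Bool // X ∈ D ∧ X 0 = b}
    have hc := cs_few (α := α) hD hK h1 h4
    have hA : (1 : ℕ) ∈ ({1, n} : Set ℕ) := Or.inl rfl
    have g1 := hc.front hA hp b true (fun a => a.1) fun a => a.2.2
    have g2 := hc.ins1 hA hp true true (fun a => a.1)
    have g3 := hc.it n (Or.inr rfl) (fun a => cns true (pf 0 a.1)) (fun a => cns true (pf n a.1))
      fun a => it_run hp a.1 n
    have g4 := hc.symm _ _ _ (hc.front hA hp (decide (n = 0)) true (fun a => pf n a.1) fun a => by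
      unfold pf
      by_cases hn : n = 0
      · subst hn
        simp
      · rw [if_pos (by omega)]
        simp [hn])
    simp only [← pf_zero] at g2
    have t := hc.trans _ _ _ _ _ (hc.trans _ _ _ _ _ (hc.trans _ _ _ _ _ g1 g2) g3) g4
    obtain ⟨⟨L, e1, e2⟩, ⟨L', e1', e2'⟩⟩ := t.2 fun a => a.2.1
    refine ⟨L ∪ L', ?_, fun X hX hb => ?_⟩
    · refine (Finset.card_union_le _ _).trans ?_
      have : K ^ (7 + 7 + 1 + 7) = K ^ 22 := rfl
      omega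
    · obtain ⟨l, hl, hl'⟩ := e2 ⟨X, hX, hb⟩
      obtain ⟨m, hm, hm'⟩ := e2' ⟨X, hX, hb⟩
      exact ⟨⟨l, Finset.mem_union_left _ hl, hl'⟩, ⟨m, Finset.mem_union_right _ hm, hm'⟩⟩
  obtain ⟨M, hM, hM'⟩ := key true
  obtain ⟨M', hN, hN'⟩ := key false
  refine ⟨M ∪ M', (Finset.card_union_le _ _).trans (by omega), fun X hX => ?_⟩
  cases hb : X 0 with
  | true =>
    obtain ⟨⟨l, hl, hl'⟩, ⟨m, hm, hm'⟩⟩ := hM' X hX hb
    exact ⟨⟨l, Finset.mem_union_left _ hl, hl'⟩, ⟨m, Finset.mem_union_left _ hm, hm'⟩⟩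
  | false =>
    obtain ⟨⟨l, hl, hl'⟩, ⟨m, hm, hm'⟩⟩ := hN' X hX hb
    exact ⟨⟨l, Finset.mem_union_right _ hl, hl'⟩, ⟨m, Finset.mem_union_right _ hm, hm'⟩⟩

/-- inside every degree -/
theorem every (hp : Pair i j) (z : ℕ → Bool)
    (hz : ∀ k : ℕ, ∃ i' j' : Code, ∀ D, le z D → ∀ L : Finset Code, L.card ≤ k →
      ∃ X Y : ℕ → Bool, (le X D ∧ le D X) ∧ Red i' X Y ∧ Red j' Y X ∧
        ∀ l ∈ L, ¬ Red l (G X) (G Y)) (k : ℕ) :
    ∃ N : ℕ, ∀ D, le z D → ¬ FlipSuff G {X | le X D ∧ le D X} k ∨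
      ∃ n ≤ N, ¬ ItSuff i j G {X | le X D ∧ le D X} k n := by
  obtain ⟨i', j', hij⟩ := hz (4 * (k + 1) ^ 90)
  set N := max 1 (max (2 * encode i') (2 * encode j' + 1)) with hN
  refine ⟨N, fun D hzD => ?_⟩
  by_contra hcon
  push Not at hcon
  obtain ⟨h1, h2⟩ := hcon
  have hD : Inv {X | le X D ∧ le D X} := fun X hX Y h3 h4 =>
    ⟨le_trans' h4 hX.1, le_trans' hX.2 h3⟩
  have e1 : 1 ≤ N := le_max_left _ _
  have e2 : 2 * encode i' ≤ N := (le_max_left _ _).trans (le_max_right _ _)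
  have e3 : 2 * encode j' + 1 ≤ N := (le_max_right _ _).trans (le_max_right _ _)
  obtain ⟨L, hL, hL'⟩ := few_pair (A := {n | n ≤ N}) hp hD (by omega : 1 ≤ k + 1)
    (h1.mono (Nat.le_succ k)) (fun n hn => (h2 n hn).mono (Nat.le_succ k)) i' j' e1 e2 e3
  obtain ⟨X, Y, g1, g2, g3, g4⟩ := hij D hzD L hL
  obtain ⟨l, hl, hl'⟩ := hL' X g1 Y g2 g3
  exact g4 l hl hl'

end

end Pool.Agent.H16R.TR
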