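import Pool.Agent.H16R.BO.Fin2
import Pool.Agent.H16R.TR.Two

/-!
One pair of programs and codings, for Borel operations.
-/

set_option autoImplicit false

namespace Pool.Agent.H16R.TR

open Nat.Partrec (Code)
open Encodable
open Pool.Agent.H639.LU Pool.Agent.H869R3.FN Pool.Agent.Y579.PP Pool.Agent.R616.DI
open Pool.Agent.H16R.BO
open Pool.Agent.Helper446.Defs Pool.Agent.Helper446.Oracle

/-- `k` programs suffice for the equivalence of `G X` and `G (S n X)`, on a cone -/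
def SuffG (G : (ℕ → Bool) → ℕ → Bool) (S : ℕ → (ℕ → Bool) → ℕ → Bool) (k n : ℕ) : Prop :=
  ∃ M : Finset Code, M.card ≤ k ∧ ∃ z : ℕ → Bool, ∀ X : ℕ → Bool, le z X →
    (∃ l ∈ M, Red l (G X) (G (S n X))) ∧ ∃ l ∈ M, Red l (G (S n X)) (G X)

/-- no bounded number of programs on any Borel set of oracles with members of cofinally many
degrees -/
def NoFew (G : (ℕ → Bool) → ℕ → Bool) : Prop :=
  ∀ F : Set (ℕ → Bool), MeasurableSet F → Cof F → ∀ K : ℕ, ∃ i j : Code, ∀ L : Finset Code,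
    L.card ≤ K → ∀ z : ℕ → Bool, ∃ X ∈ F, ∃ Y ∈ F, le z X ∧ Red i X Y ∧ Red j Y X ∧
      ∀ l ∈ L, ¬ Red l (G X) (G Y)

theorem two_sided_B (G : (ℕ → Bool) → ℕ → Bool) (hG : NoFew G)
    (S : ℕ → (ℕ → Bool) → ℕ → Bool) (hS : IsCoding S)
    (h1 : ∀ i j : Code, ∃ (L : Finset Code) (z : ℕ → Bool), ∀ X Y : ℕ → Bool,
      le z X → Red i X Y → Red j Y X → ∃ l ∈ L, Red l (G X) (G Y)) (k : ℕ) :
    {n : ℕ | SuffG G S k n}.Finite := by
  classical
  by_contra hinf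
  set B : Set ℕ := {n : ℕ | SuffG G S k n} with hB
  obtain ⟨κ, hκ, hκ'⟩ := K7
  obtain ⟨a, b, hab⟩ := id hS
  have c1 : Computable (fun n : ℕ => Denumerable.ofNat Code n.unpair.1) :=
    (Computable.ofNat Code).comp (Computable.fst.comp Computable.unpair)
  have c2 : Computable (fun n : ℕ => Denumerable.ofNat Code n.unpair.2) :=
    (Computable.ofNat Code).comp (Computable.snd.comp Computable.unpair)
  obtain ⟨i1, hi1⟩ := exists_univ3 _ c1
  obtain ⟨j1, hj1⟩ := exists_univ3 _ c2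
  obtain ⟨Ls, zs, hLs⟩ := h1 (κ (κ (b, i1), a)) (κ (κ (b, j1), a))
  have hch : ∀ n : ℕ, ∃ (M : Finset Code) (z : ℕ → Bool), M.card ≤ k ∧ (n ∈ B →
      ∀ X : ℕ → Bool, le z X → (∃ l ∈ M, Red l (G X) (G (S n X))) ∧
        ∃ l ∈ M, Red l (G (S n X)) (G X)) := by
    intro n
    by_cases hn : n ∈ B
    · obtain ⟨M, hM, z, hz⟩ := hn
      exact ⟨M, z, hM, fun _ => hz⟩
    · exact ⟨∅, fun _ => false, by simp, fun h => absurd h hn⟩
  choose M zM hMc hM using hch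
  set N : ℕ → Bool := fun n => decide (n ∈ B) with hNdef
  have hN : {n | N n = true}.Infinite := by
    have e : {n | N n = true} = B := by
      ext n
      simp [hNdef]
    rw [e]
    exact hinf
  set F : Set (ℕ → Bool) := {Y | ∀ m, Y (2 * m) = N m} with hFdef
  have hFm : MeasurableSet F := by
    have e : F = ⋂ m, {Y : ℕ → Bool | Y (2 * m) = N m} := by
      ext Y
      simp [hFdef]
    rw [e]
    exact MeasurableSet.iInter fun m =>
      (measurable_pi_apply (2 * m) : Measurable fun X : ℕ → Bool => X (2 * m))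
        (measurableSet_singleton (N m))
  have hFd : Cof F := by
    intro z
    obtain ⟨X, hX0, hX1⟩ := joinEven N z
    exact ⟨X, hX0, K4.2.2.2 X z (fun n => 2 * n + 1) (by fun_prop) (fun n => by rw [hX1])⟩
  obtain ⟨z₁, hz₁⟩ := join_seq zM
  obtain ⟨z₃, hz₃, hz₃'⟩ := join2 z₁ zs
  set p : ℕ → Prop := fun x => N x = true with hp
  have hnth : ∀ m : ℕ, N (Nat.nth p m) = true ∧ Nat.count p (Nat.nth p m) = m := fun m =>
    ⟨Nat.nth_mem_of_infinite hN m, Nat.count_nth_of_infinite hN m⟩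
  let u : Code → Code → Finset Code := fun i j =>
    (M (Nat.nth p (Nat.pair (encode i) (encode j))) ×ˢ
      (Ls ×ˢ M (Nat.nth p (Nat.pair (encode i) (encode j))))).image
        (fun q : Code × Code × Code => κ (κ (q.1, q.2.1), q.2.2))
  have hu : ∀ i j, (u i j).card ≤ k * (Ls.card * k) := by
    intro i j
    refine Finset.card_image_le.trans ?_
    rw [Finset.card_product, Finset.card_product]
    exact Nat.mul_le_mul (hMc _) (Nat.mul_le_mul (le_refl _) (hMc _))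
  obtain ⟨i, j, hij⟩ := hG F hFm hFd (k * (Ls.card * k))
  obtain ⟨X, hXF, Y, hYF, hX, hXY, hYX, hbad⟩ := hij (u i j) (hu i j) z₃
  have g1 : ∀ n, le (zM n) X := fun n => le_trans' (le_trans' (hz₁ n) hz₃) hX
  have g2 : le zs X := le_trans' hz₃' hX
  obtain ⟨hn1, hn2⟩ := hnth (Nat.pair (encode i) (encode j))
  set n := Nat.nth p (Nat.pair (encode i) (encode j)) with hn
  have hnB : n ∈ B := by simpa [hNdef] using hn1
  obtain ⟨⟨l₁, hl₁, hl₁'⟩, -⟩ := hM n hnB X (g1 n)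
  obtain ⟨-, ⟨l₂, hl₂, hl₂'⟩⟩ := hM n hnB Y (le_trans' (g1 n) ((le_iff Y X).2 ⟨j, hYX⟩))
  have e3 : Nat.count (fun x => N x = true) n = Nat.pair (encode i) (encode j) := hn2
  have r1 : Red (κ (κ (b, i1), a)) (S n X) (S n Y) := by
    refine hκ' _ _ _ _ _ (hκ' _ _ _ _ _ (hab n X).2 (hi1 n N X Y hXF ?_)) (hab n Y).1
    rw [e3, Nat.unpair_pair, Denumerable.ofNat_encode]
    exact hXY
  have r2 : Red (κ (κ (b, j1), a)) (S n Y) (S n X) := by
    refine hκ' _ _ _ _ _ (hκ' _ _ _ _ _ (hab n Y).2 (hj1 n N Y X hYF ?_)) (hab n X).1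
    rw [e3, Nat.unpair_pair, Denumerable.ofNat_encode]
    exact hYX
  obtain ⟨l₀, hl₀, hl₀'⟩ := hLs (S n X) (S n Y) (le_trans' g2 (le_S hS n X)) r1 r2
  exact hbad (κ (κ (l₁, l₀), l₂)) (Finset.mem_image.2 ⟨(l₁, l₀, l₂), Finset.mem_product.2 ⟨hl₁,
    Finset.mem_product.2 ⟨hl₀, hl₂⟩⟩, rfl⟩) (hκ' _ _ _ _ _ (hκ' _ _ _ _ _ hl₁' hl₀') hl₂')

theorem singleG (hMI : P_MI) (hMC : P_MC) (G : (ℕ → Bool) → ℕ → Bool)
    (hG : Measurable G) (hr : NoFew G) :
    (∃ (i j : Code) (z : ℕ → Bool), ∀ X, le z X → ∀ L : Finset Code, Fail G i j L X) ∨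
    ∀ S : ℕ → (ℕ → Bool) → ℕ → Bool, IsCoding S → ∃ z : ℕ → Bool, ∀ k : ℕ,
      {n : ℕ | ∃ X, le z X ∧ ∃ M : Finset Code, M.card ≤ k ∧ ∀ X₁, le X₁ X → le X X₁ →
        (∃ l ∈ M, Red l (G X₁) (G (S n X₁))) ∧
        ∃ l ∈ M, Red l (G (S n X₁)) (G X₁)}.Finite := by
  by_cases hfin : ∀ i j : Code, ∃ (L : Finset Code) (z : ℕ → Bool), ∀ X Y : ℕ → Bool,
      le z X → Red i X Y → Red j Y X → ∃ l ∈ L, Red l (G X) (G Y)
  · right
    intro S hS
    have h' := two_sided_B G hr S hS hfin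
    have hcp := coding_pair hS
    choose a b hab using hcp
    -- the bad cones
    let Good : ℕ → Finset Code → Prop := fun n M => ∃ z : ℕ → Bool, ∀ X : ℕ → Bool, le z X →
      (∃ l ∈ M, Red l (G X) (G (S n X))) ∧ ∃ l ∈ M, Red l (G (S n X)) (G X)
    have h2 : ∀ p : ℕ × Finset Code, ∃ z : ℕ → Bool, ¬ Good p.1 p.2 → ∀ X, le z X →
        Fail G (a p.1) (b p.1) p.2 X ∨ Fail G (b p.1) (a p.1) p.2 X := by
      intro p
      by_cases hg : Good p.1 p.2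
      · exact ⟨fun _ => false, fun h => absurd hg h⟩
      have hbad : ∀ z : ℕ → Bool, ∃ X, le z X ∧
          ((∀ l ∈ p.2, ¬ Red l (G X) (G (S p.1 X))) ∨
            ∀ l ∈ p.2, ¬ Red l (G (S p.1 X)) (G X)) := by
        intro z
        by_contra hcon
        push Not at hcon
        exact hg ⟨z, fun X hX => ⟨(hcon X hX).1, (hcon X hX).2⟩⟩
      by_cases h3 : ∀ z : ℕ → Bool, ∃ X, le z X ∧ ∀ l ∈ p.2, ¬ Red l (G X) (G (S p.1 X))
      · obtain ⟨z, hz⟩ := fail_cone hMI hMC hG (i := a p.1) (j := b p.1) (L := p.2) fun z => by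
          obtain ⟨X, h4, h5⟩ := h3 z
          exact ⟨X, S p.1 X, h4, (hab p.1 X).1, (hab p.1 X).2, h5⟩
        exact ⟨z, fun _ X hX => Or.inl (hz X hX)⟩
      · push Not at h3
        obtain ⟨z', hz'⟩ := h3
        obtain ⟨z, hz⟩ := fail_cone hMI hMC hG (i := b p.1) (j := a p.1) (L := p.2) fun z => by
          obtain ⟨z₄, h4a, h4b⟩ := join2 z z'
          obtain ⟨X, h4, h5⟩ := hbad z₄
          rcases h5 with h5 | h5
          · obtain ⟨l, hl, hl'⟩ := hz' X (le_trans' h4b h4)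
            exact absurd hl' (h5 l hl)
          · refine ⟨S p.1 X, X, ?_, (hab p.1 X).2, (hab p.1 X).1, h5⟩
            exact le_trans' (le_trans' h4a h4) ((le_iff _ _).2 ⟨_, (hab p.1 X).2⟩)
        exact ⟨z, fun _ X hX => Or.inr (hz X hX)⟩
    choose zp hzp using h2
    obtain ⟨y, hy⟩ := join_cnt zp
    refine ⟨y, fun k => (h' k).subset ?_⟩
    rintro n ⟨X, hX, M, hM, hgood⟩
    by_contra hn
    have hng : ¬ Good n M := fun hg => hn ⟨M, hM, hg⟩
    rcases hzp (n, M) hng X (le_trans' (hy _) hX) with ⟨X₁, Y₁, g1, g2, g3, g4, g5⟩ |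
      ⟨X₁, Y₁, g1, g2, g3, g4, g5⟩
    · have e : Y₁ = S n X₁ := red_unique g3 (hab n X₁).1
      subst e
      obtain ⟨l, hl, hl'⟩ := (hgood X₁ g1 g2).1
      exact g5 l hl hl'
    · have e : X₁ = S n Y₁ := red_unique g4 (hab n Y₁).1
      subst e
      have g6 : le Y₁ X := le_trans' ((le_iff _ _).2 ⟨_, g3⟩) g1
      have g7 : le X Y₁ := le_trans' g2 ((le_iff _ _).2 ⟨_, g4⟩)
      obtain ⟨l, hl, hl'⟩ := (hgood Y₁ g6 g7).2
      exact g5 l hl hl'
  · left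
    push Not at hfin
    obtain ⟨i, j, h⟩ := hfin
    have h2 : ∀ L : Finset Code, ∃ z, ∀ X, le z X → Fail G i j L X :=
      fun L => fail_cone hMI hMC hG fun z => h L z
    choose zL hzL using h2
    obtain ⟨y, hy⟩ := join_cnt zL
    exact ⟨i, j, y, fun X hX L => hzL L X (le_trans' (hy L) hX)⟩

theorem noFew_B (hBC : P_BC) (hLB : P_LB) (G : (ℕ → Bool) → ℕ → Bool) (hG : Measurable G)
    (z₀ : ℕ → Bool) (hr : ∀ X, le z₀ X → ¬ le (G X) X ∧ le X (G X) ∧ ¬ le (ch (J X)) (G X)) :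
    NoFew G :=
  fun F hF hF' K => solB hBC hLB F hF hF' G hG z₀ (fun X _ hX => hr X hX) K

/-- in every degree: the coding `S` -/
theorem single_S (hMI : P_MI) (hMC : P_MC) (G : (ℕ → Bool) → ℕ → Bool)
    (hG : Measurable G) (hr : NoFew G) {i j : Code} (hp : Pair i j)
    (S : ℕ → (ℕ → Bool) → ℕ → Bool) (hS : IsCoding S) :
    ∃ z : ℕ → Bool, ∀ k : ℕ, {n : ℕ | ∃ D, le z D ∧ FlipSuff G {X | le X D ∧ le D X} k ∧
      ItSuff i j G {X | le X D ∧ le D X} k 1 ∧ ∃ M : Finset Code, M.card ≤ k ∧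
        ∀ X, le X D → le D X → (∃ l ∈ M, Red l (G X) (G (S n X))) ∧
          ∃ l ∈ M, Red l (G (S n X)) (G X)}.Finite := by
  rcases singleG hMI hMC G hG hr with ⟨i₀, j₀, z, hz⟩ | h
  · refine ⟨z, fun k => ?_⟩
    convert Set.finite_empty
    refine Set.eq_empty_iff_forall_notMem.2 ?_
    rintro n ⟨D, hD, h1, h2, -⟩
    have hI : Inv {X | le X D ∧ le D X} := fun X hX Y h3 h4 =>
      ⟨le_trans' h4 hX.1, le_trans' hX.2 h3⟩
    obtain ⟨L, hL⟩ := fin_all hp hI h1 h2 i₀ j₀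
    obtain ⟨X, Y, g1, g2, g3, g4, g5⟩ := hz D hD L
    obtain ⟨l, hl, hl'⟩ := hL X ⟨g1, g2⟩ Y g3 g4
    exact g5 l hl hl'
  · obtain ⟨z, hz⟩ := h S hS
    refine ⟨z, fun k => (hz k).subset ?_⟩
    rintro n ⟨D, hD, -, -, M, hM, hM'⟩
    exact ⟨D, hD, M, hM, hM'⟩

theorem coding_countable : Countable {S : ℕ → (ℕ → Bool) → ℕ → Bool // IsCoding S} := by
  have h : ∀ S : {S : ℕ → (ℕ → Bool) → ℕ → Bool // IsCoding S}, ∃ a : Code, ∀ n X,
      Red a (pf n X) (S.1 n X) := by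
    rintro ⟨S, a, b, hab⟩
    exact ⟨a, fun n X => (hab n X).1⟩
  choose a ha using h
  refine Function.Injective.countable (f := a) fun S T hST => ?_
  apply Subtype.ext
  funext n X
  exact red_unique (by rw [← hST]; exact ha S n X) (ha T n X)

/-- in every degree: all codings and the iterates -/
theorem single_all (hMI : P_MI) (hMC : P_MC) (G : (ℕ → Bool) → ℕ → Bool)
    (hG : Measurable G) (hr : NoFew G) {i j : Code} (hp : Pair i j) :
    ∃ z : ℕ → Bool, ∀ k : ℕ,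
      (∀ S : ℕ → (ℕ → Bool) → ℕ → Bool, IsCoding S → {n : ℕ | ∃ D, le z D ∧
        FlipSuff G {X | le X D ∧ le D X} k ∧ ItSuff i j G {X | le X D ∧ le D X} k 1 ∧
        ∃ M : Finset Code, M.card ≤ k ∧ ∀ X, le X D → le D X →
          (∃ l ∈ M, Red l (G X) (G (S n X))) ∧ ∃ l ∈ M, Red l (G (S n X)) (G X)}.Finite) ∧
      {n : ℕ | ∃ D, le z D ∧ FlipSuff G {X | le X D ∧ le D X} k ∧
        ItSuff i j G {X | le X D ∧ le D X} k 1 ∧
          ItSuff i j G {X | le X D ∧ le D X} k n}.Finite := by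
  haveI := coding_countable
  choose zS hzS using fun S : {S : ℕ → (ℕ → Bool) → ℕ → Bool // IsCoding S} =>
    single_S hMI hMC G hG hr hp S.1 S.2
  obtain ⟨z, hz⟩ := join_cnt zS
  have key : ∀ k : ℕ, ∀ S : ℕ → (ℕ → Bool) → ℕ → Bool, IsCoding S → {n : ℕ | ∃ D, le z D ∧
        FlipSuff G {X | le X D ∧ le D X} k ∧ ItSuff i j G {X | le X D ∧ le D X} k 1 ∧
        ∃ M : Finset Code, M.card ≤ k ∧ ∀ X, le X D → le D X →
          (∃ l ∈ M, Red l (G X) (G (S n X))) ∧ ∃ l ∈ M, Red l (G (S n X)) (G X)}.Finite := by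
    intro k S hS
    refine (hzS ⟨S, hS⟩ k).subset ?_
    rintro n ⟨D, hD, h⟩
    exact ⟨D, le_trans' (hz ⟨S, hS⟩) hD, h⟩
  refine ⟨z, fun k => ⟨key k, (key (4 * (k + 1) ^ 22) pf isCoding_pf).subset ?_⟩⟩
  rintro n ⟨D, hD, h1, h2, h3⟩
  have hI : Inv {X | le X D ∧ le D X} := fun X hX Y h3 h4 =>
    ⟨le_trans' h4 hX.1, le_trans' hX.2 h3⟩
  have hk : k ≤ 4 * (k + 1) ^ 22 := by
    have : k + 1 ≤ (k + 1) ^ 22 := Nat.le_self_pow (by norm_num) _
    omega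
  obtain ⟨M, hM, hM'⟩ := pf_few hp hI (by omega : 1 ≤ k + 1) (h1.mono (Nat.le_succ k))
    (h2.mono (Nat.le_succ k)) (h3.mono (Nat.le_succ k))
  exact ⟨D, hD, h1.mono hk, h2.mono hk, M, hM, fun X hX hX' => hM' X ⟨hX, hX'⟩⟩

/-- the global form: all codings and the iterates, on cones -/
theorem cone_all (G : (ℕ → Bool) → ℕ → Bool) (hr : NoFew G) {i j : Code} (hp : Pair i j) (k : ℕ) :
    (∀ S : ℕ → (ℕ → Bool) → ℕ → Bool, IsCoding S → {n : ℕ | ∃ z,
      FlipSuff G {X | le z X} k ∧ ItSuff i j G {X | le z X} k 1 ∧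
      ∃ M : Finset Code, M.card ≤ k ∧ ∀ X, le z X →
        (∃ l ∈ M, Red l (G X) (G (S n X))) ∧ ∃ l ∈ M, Red l (G (S n X)) (G X)}.Finite) ∧
    {n : ℕ | ∃ z, FlipSuff G {X | le z X} k ∧ ItSuff i j G {X | le z X} k 1 ∧
        ItSuff i j G {X | le z X} k n}.Finite := by
  have hI : ∀ z, Inv {X | le z X} := fun z X hX Y h3 h4 => le_trans' hX h3
  have key : ∀ k : ℕ, ∀ S : ℕ → (ℕ → Bool) → ℕ → Bool, IsCoding S → {n : ℕ | ∃ z,
      FlipSuff G {X | le z X} k ∧ ItSuff i j G {X | le z X} k 1 ∧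
      ∃ M : Finset Code, M.card ≤ k ∧ ∀ X, le z X →
        (∃ l ∈ M, Red l (G X) (G (S n X))) ∧ ∃ l ∈ M, Red l (G (S n X)) (G X)}.Finite := by
    intro k S hS
    by_cases h : ∃ z, FlipSuff G {X | le z X} k ∧ ItSuff i j G {X | le z X} k 1
    · obtain ⟨z, h1, h2⟩ := h
      refine (two_sided_B G hr S hS (fun i' j' => ?_) k).subset ?_
      · obtain ⟨L, hL⟩ := fin_all hp (hI z) h1 h2 i' j'
        exact ⟨L, z, fun X Y hX h3 h4 => hL X hX Y h3 h4⟩
      · rintro n ⟨z', -, -, M, hM, hM'⟩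
        exact ⟨M, hM, z', hM'⟩
    · convert Set.finite_empty
      refine Set.eq_empty_iff_forall_notMem.2 ?_
      rintro n ⟨z, h1, h2, -⟩
      exact h ⟨z, h1, h2⟩
  refine ⟨key k, (key (4 * (k + 1) ^ 22) pf isCoding_pf).subset ?_⟩
  rintro n ⟨z, h1, h2, h3⟩
  have hk : k ≤ 4 * (k + 1) ^ 22 := by
    have : k + 1 ≤ (k + 1) ^ 22 := Nat.le_self_pow (by norm_num) _
    omega
  obtain ⟨M, hM, hM'⟩ := pf_few hp (hI z) (by omega : 1 ≤ k + 1) (h1.mono (Nat.le_succ k))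
    (h2.mono (Nat.le_succ k)) (h3.mono (Nat.le_succ k))
  exact ⟨z, h1.mono hk, h2.mono hk, M, hM, hM'⟩

end Pool.Agent.H16R.TR
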