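import Pool.Agent.H16R.TR.Wrd

/-!
Programs which are given by words: exponential bounds, and polynomial bounds for the iterates.
-/

set_option autoImplicit false

namespace Pool.Agent.H16R.TR

open Nat.Partrec (Code)
open Encodable
open Pool.Agent.H639.LU Pool.Agent.H869R3.FN Pool.Agent.Y579.PP Pool.Agent.R616.DI
open Pool.Agent.Helper446.Defs Pool.Agent.Helper446.Oracle

section
variable {i j : Code} {A : Set ℕ} {α : Type} {R : ℕ → (α → ℕ → Bool) → (α → ℕ → Bool) → Prop}

/-- a word in front -/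
theorem Cs.word (h : Cs i j A R) (hN : 1 ∈ A) (hp : Pair i j) (w : Str) (b : Bool)
    (f : α → ℕ → Bool) (hf : ∀ a, f a 0 = b) :
    R (7 * (2 * w.length + 1)) f fun a => wc w (f a) := by
  induction w with
  | nil => exact h.front hN hp b false f hf
  | cons β w ih =>
    have h1 := h.front hN hp (wc w (fun _ => false) 0) β (fun a => wc w (f a)) fun a =>
      wc_head w _ _ 0 (by omega)
    have h2 := h.front hN hp β true (fun a => cns β (wc w (f a))) fun a => rfl
    have h3 := h.trans _ _ _ _ _ (h.trans _ _ _ _ _ ih h1) h2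
    have e : 7 * (2 * w.length + 1) + 7 + 7 = 7 * (2 * (β :: w).length + 1) := by
      rw [List.length_cons]
      ring
    rw [e] at h3
    exact h3

end

section
variable {G : (ℕ → Bool) → ℕ → Bool} {D : Set (ℕ → Bool)} {i j : Code}

/-- exponential bound in the length of a word, for two programs which read the word -/
theorem expo_gen (hp : Pair i j) (hD : Inv D) {k : ℕ} (h1 : FlipSuff G D k)
    (h2 : ItSuff i j G D k 1) (a b : Code) :
    ∃ c : ℕ, ∀ (w : Str) (Q : (ℕ → Bool) → (ℕ → Bool) → Prop),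
      (∀ X Y, Q X Y → (le X Y ∧ le Y X) ∧ Red a (wc w X) (wc w Y) ∧ Red b (wc w Y) (wc w X)) →
      ∃ L : Finset Code, L.card ≤ c * ((k + 1) ^ 28) ^ w.length ∧
        ∀ X ∈ D, ∀ Y, Q X Y → ∃ l ∈ L, Red l (G X) (G Y) := by
  classical
  obtain ⟨L₀, hL₀⟩ := fin_all hp hD h1 h2 a b
  refine ⟨4 * L₀.card * (k + 1) ^ 14, fun w Q hQ => ?_⟩
  have hK : 1 ≤ k + 1 := by omega
  have h1' : FlipSuff G D (k + 1) := h1.mono (Nat.le_succ k)
  have h2' : ∀ n ∈ ({1} : Set ℕ), ItSuff i j G D (k + 1) n := by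
    rintro n rfl
    exact h2.mono (Nat.le_succ k)
  have key : ∀ q : Bool × Bool, ∃ L : Finset Code,
      L.card ≤ (k + 1) ^ (7 * (2 * w.length + 1)) * L₀.card *
        (k + 1) ^ (7 * (2 * w.length + 1)) ∧ ∀ X Y : ℕ → Bool,
      X ∈ D → Q X Y → X 0 = q.1 → Y 0 = q.2 → ∃ l ∈ L, Red l (G X) (G Y) := by
    intro q
    let α := {p : (ℕ → Bool) × (ℕ → Bool) // p.1 ∈ D ∧ Q p.1 p.2 ∧ p.1 0 = q.1 ∧ p.2 0 = q.2}
    have hc := cs_few (α := α) hD hK h1' h2'
    have g1 := hc.word rfl hp w q.1 (fun a => a.1.1) fun a => a.2.2.2.1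
    have g3 := hc.word rfl hp w q.2 (fun a => a.1.2) fun a => a.2.2.2.2
    have hX : ∀ a : α, a.1.1 ∈ D := fun a => a.2.1
    have hY : ∀ a : α, a.1.2 ∈ D := fun a => hD _ a.2.1 _ (hQ _ _ a.2.2.1).1.1
      (hQ _ _ a.2.2.1).1.2
    have g2 : Few G L₀.card (fun a : α => wc w a.1.1) fun a => wc w a.1.2 :=
      ⟨L₀, le_rfl, fun a => hL₀ _ (hD _ (hX a) _ (g1.1 a).1 (g1.1 a).2) _
        (hQ _ _ a.2.2.1).2.1 (hQ _ _ a.2.2.1).2.2⟩
    obtain ⟨L, hL, hL'⟩ := ((g1.2 hX).1.trans g2).trans (g3.2 hY).2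
    exact ⟨L, hL, fun X Y e1 e2 e3 e4 => hL' ⟨(X, Y), e1, e2, e3, e4⟩⟩
  choose L hL1 hL2 using key
  refine ⟨Finset.univ.biUnion L, ?_, fun X hX Y h2 => ?_⟩
  · refine Finset.card_biUnion_le.trans ?_
    refine (Finset.sum_le_sum fun q _ => hL1 q).trans ?_
    rw [Finset.sum_const, smul_eq_mul]
    have e : (Finset.univ : Finset (Bool × Bool)).card = 4 := rfl
    rw [e]
    apply le_of_eq
    rw [← pow_mul]
    ring
  · obtain ⟨l, hl, hl'⟩ := hL2 (X 0, Y 0) X Y hX h2 rfl rfl
    exact ⟨l, Finset.mem_biUnion.2 ⟨_, Finset.mem_univ _, hl⟩, hl'⟩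

/-- exponential bound in the length of the word which gives the pair -/
theorem expo (hp : Pair i j) (hD : Inv D) {k : ℕ} (h1 : FlipSuff G D k)
    (h2 : ItSuff i j G D k 1) (φ : Str →. Code × Code) (hφ : Partrec φ) :
    ∃ c : ℕ, ∀ (w : Str) (i' j' : Code), (i', j') ∈ φ w → ∃ L : Finset Code,
      L.card ≤ c * ((k + 1) ^ 28) ^ w.length ∧
      ∀ X ∈ D, ∀ Y, Red i' X Y → Red j' Y X → ∃ l ∈ L, Red l (G X) (G Y) := by
  obtain ⟨a, ha⟩ := exists_univ_w (fun w => (φ w).map Prod.fst)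
    (hφ.map (Computable.fst.comp Computable.snd))
  obtain ⟨b, hb⟩ := exists_univ_w (fun w => (φ w).map Prod.snd)
    (hφ.map (Computable.snd.comp Computable.snd))
  obtain ⟨c, hc⟩ := expo_gen hp hD h1 h2 a b
  refine ⟨c, fun w i' j' hw => ?_⟩
  obtain ⟨L, hL, hL'⟩ := hc w (fun X Y => Red i' X Y ∧ Red j' Y X) fun X Y h =>
    ⟨⟨(le_iff _ _).2 ⟨_, h.2⟩, (le_iff _ _).2 ⟨_, h.1⟩⟩,
      ha w i' (Part.mem_map Prod.fst hw) _ _ h.1, hb w j' (Part.mem_map Prod.snd hw) _ _ h.2⟩
  exact ⟨L, hL, fun X hX Y h3 h4 => hL' X hX Y ⟨h3, h4⟩⟩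

end

/-- the number given by a binary word -/
def bval (w : Str) : ℕ := w.foldr (fun b m => 2 * m + b.toNat) 0

theorem bval_bits (n : ℕ) : bval (Nat.bits n) = n := by
  induction n using Nat.binaryRec' with
  | zero => rfl
  | bit b n h ih =>
    rw [Nat.bits_append_bit n b h]
    show 2 * bval (Nat.bits n) + b.toNat = _
    rw [ih, Nat.bit_val]

theorem bval_prim : Primrec bval := by
  refine Primrec.list_foldr (f := fun w : Str => w) (g := fun _ => 0)
    (h := fun (_ : Str) (p : Bool × ℕ) => 2 * p.2 + p.1.toNat) Primrec.id (Primrec.const 0) ?_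
  exact Primrec.nat_add.comp (Primrec.nat_mul.comp (Primrec.const 2)
    (Primrec.snd.comp Primrec.snd)) ((Primrec.dom_finite (fun b : Bool => b.toNat)).comp
      (Primrec.fst.comp Primrec.snd))

theorem pow_bits (k n : ℕ) : ((k + 1) ^ 28) ^ (Nat.bits n).length ≤
    2 ^ (28 * (k + 1)) * (n + 1) ^ (28 * (k + 1)) := by
  have hs : (Nat.bits n).length = Nat.size n := Nat.size_eq_bits_len n
  rw [hs]
  have g1 : (k + 1) ^ 28 ≤ 2 ^ (28 * (k + 1)) := by
    rw [mul_comm, pow_mul]
    exact Nat.pow_le_pow_left (Nat.lt_two_pow_self).le 28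
  have g2 : 2 ^ Nat.size n ≤ 2 * (n + 1) := by
    rcases Nat.eq_zero_or_pos (Nat.size n) with h | h
    · rw [h]
      omega
    · have : 2 ^ (Nat.size n - 1) ≤ n := by
        by_contra hcon
        have := Nat.size_le.2 (not_le.1 hcon)
        omega
      calc 2 ^ Nat.size n = 2 * 2 ^ (Nat.size n - 1) := by
            rw [← pow_succ']
            congr 1
            omega
        _ ≤ 2 * (n + 1) := by omega
  calc ((k + 1) ^ 28) ^ Nat.size n ≤ (2 ^ (28 * (k + 1))) ^ Nat.size n :=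
        Nat.pow_le_pow_left g1 _
    _ = (2 ^ Nat.size n) ^ (28 * (k + 1)) := by rw [← pow_mul, ← pow_mul, mul_comm]
    _ ≤ (2 * (n + 1)) ^ (28 * (k + 1)) := Nat.pow_le_pow_left g2 _
    _ = 2 ^ (28 * (k + 1)) * (n + 1) ^ (28 * (k + 1)) := mul_pow _ _ _

/-- programs for the iterates -/
theorem it_codes (i j : Code) : ∃ I : ℕ → Code × Code, Computable I ∧
    ∀ n X Y, It i j n X Y → Red (I n).1 X Y ∧ Red (I n).2 Y X := by
  obtain ⟨κ, hκ, hκ'⟩ := K7
  obtain ⟨d, hd⟩ := exists_id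
  let I : ℕ → Code × Code := fun n =>
    Nat.rec (motive := fun _ => Code × Code) (d, d) (fun _ p => (κ (p.1, i), κ (j, p.2))) n
  refine ⟨I, ?_, fun n => ?_⟩
  · refine Computable.nat_rec (f := fun n : ℕ => n) (g := fun _ => (d, d))
      (h := fun (_ : ℕ) (q : ℕ × (Code × Code)) => (κ (q.2.1, i), κ (j, q.2.2)))
      Computable.id (Computable.const _) ?_
    exact (hκ.comp ((Computable.fst.comp (Computable.snd.comp Computable.snd)).pair
      (Computable.const i))).pair (hκ.comp ((Computable.const j).pair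
        (Computable.snd.comp (Computable.snd.comp Computable.snd))))
  · induction n with
    | zero =>
      intro X Y h
      have h' : X = Y := h
      subst h'
      exact ⟨hd _, hd _⟩
    | succ n ih =>
      rintro X Y ⟨Z, h1, h2, h3⟩
      obtain ⟨g1, g2⟩ := ih X Z h1
      exact ⟨hκ' _ _ _ _ _ g1 h2, hκ' _ _ _ _ _ h3 g2⟩

section
variable {G : (ℕ → Bool) → ℕ → Bool} {D : Set (ℕ → Bool)} {i j : Code}

/-- polynomial bound for the iterates along a computable function -/
theorem poly (hp : Pair i j) (hD : Inv D) {k : ℕ} (h1 : FlipSuff G D k)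
    (h2 : ItSuff i j G D k 1) (f : ℕ → ℕ) (hf : Computable f) :
    ∃ c : ℕ, ∀ n : ℕ, ItSuff i j G D (c * (n + 1) ^ (28 * (k + 1))) (f n) := by
  classical
  obtain ⟨I, hI, hI'⟩ := it_codes i j
  have hc : Computable fun w : Str => I (f (bval w)) := hI.comp (hf.comp bval_prim.to_comp)
  obtain ⟨c1, h3⟩ := expo hp hD h1 h2 (fun w => Part.some (I (f (bval w)))) hc.partrec
  obtain ⟨c2, h4⟩ := expo hp hD h1 h2 (fun w => Part.some ((I (f (bval w))).2, (I (f (bval w))).1))
    ((Computable.snd.comp hc).pair (Computable.fst.comp hc)).partrec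
  refine ⟨(c1 + c2) * 2 ^ (28 * (k + 1)), fun n => ?_⟩
  obtain ⟨L1, e1, e2⟩ := h3 (Nat.bits n) _ _ (Part.mem_some_iff.2 rfl)
  obtain ⟨L2, e3, e4⟩ := h4 (Nat.bits n) _ _ (Part.mem_some_iff.2 rfl)
  rw [bval_bits] at e2 e4
  refine ⟨L1 ∪ L2, ?_, fun X hX Y hXY => ?_⟩
  · refine (Finset.card_union_le _ _).trans ((Nat.add_le_add e1 e3).trans ?_)
    rw [← Nat.add_mul, mul_assoc]
    exact Nat.mul_le_mul_left _ (pow_bits k n)
  · obtain ⟨g1, g2⟩ := hI' _ _ _ hXY
    obtain ⟨l, hl, hl'⟩ := e2 X hX Y g1 g2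
    have hY : Y ∈ D := hD X hX Y hXY.le.1 hXY.le.2
    obtain ⟨m, hm, hm'⟩ := e4 Y hY X g2 g1
    exact ⟨⟨l, Finset.mem_union_left _ hl, hl'⟩, ⟨m, Finset.mem_union_right _ hm, hm'⟩⟩

end

/-- the number of the pair which is found in the table on the even places of the oracle -/
def tbl (p : Str × Str) : Option (Code × Code) :=
  if (List.range p.2.length).findIdx
      (fun m => p.2.getD (2 * Nat.pair (bval p.1) m) false) < p.2.length then
    some (Denumerable.ofNat (Code × Code) ((List.range p.2.length).findIdx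
      (fun m => p.2.getD (2 * Nat.pair (bval p.1) m) false)))
  else none

theorem tbl_comp : Computable tbl := by
  have h1 : Primrec (fun p : Str × Str => (List.range p.2.length).findIdx
      (fun m => p.2.getD (2 * Nat.pair (bval p.1) m) false)) := by
    refine Primrec.list_findIdx (Primrec.list_range.comp (Primrec.list_length.comp Primrec.snd)) ?_
    exact (Primrec.list_getD false).comp (Primrec.snd.comp Primrec.fst)
      (Primrec.nat_mul.comp (Primrec.const 2) (Primrec₂.natPair.comp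
        (bval_prim.comp (Primrec.fst.comp Primrec.fst)) Primrec.snd))
  exact (Primrec.ite (Primrec.nat_lt.comp h1 (Primrec.list_length.comp Primrec.snd))
    (Primrec.option_some.comp ((Primrec.ofNat (Code × Code)).comp h1))
    (Primrec.const none)).to_comp

/-- the table of a sequence of pairs -/
noncomputable def tb (P : ℕ → Code × Code) : ℕ → Bool :=
  fun q => decide (q.unpair.2 = encode (P q.unpair.1))

theorem tbl_sound (P : ℕ → Code × Code) (X : ℕ → Bool) (hX : ∀ m, X (2 * m) = tb P m) (n s : ℕ)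
    (q : Code × Code) (h : tbl (Nat.bits n, seg X s) = some q) : q = P n := by
  unfold tbl at h
  simp only [seg_len, bval_bits] at h
  split_ifs at h with h1
  have h2 := List.findIdx_getElem (w := by rw [List.length_range]; exact h1)
    (xs := List.range s) (p := fun m => (seg X s).getD (2 * Nat.pair n m) false)
  rw [List.getElem_range, getD_seg'] at h2
  split_ifs at h2 with h3
  · rw [hX] at h2
    unfold tb at h2
    simp only [Nat.unpair_pair, decide_eq_true_eq] at h2
    rw [h2, Denumerable.ofNat_encode] at h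
    exact (Option.some_inj.1 h).symm

theorem tbl_complete (P : ℕ → Code × Code) (X : ℕ → Bool) (hX : ∀ m, X (2 * m) = tb P m) (n s : ℕ)
    (hs : 2 * Nat.pair n (encode (P n)) < s) : tbl (Nat.bits n, seg X s) = some (P n) := by
  have h1 : (List.range s).findIdx (fun m => (seg X s).getD (2 * Nat.pair n m) false) < s := by
    have h2 : (List.range s).findIdx (fun m => (seg X s).getD (2 * Nat.pair n m) false) <
        (List.range s).length := by
      rw [List.findIdx_lt_length]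
      refine ⟨encode (P n), List.mem_range.2 ?_, ?_⟩
      · have := Nat.right_le_pair n (encode (P n))
        omega
      · rw [getD_seg', if_pos hs, hX]
        unfold tb
        simp
    rwa [List.length_range] at h2
  cases h : tbl (Nat.bits n, seg X s) with
  | some q => rw [tbl_sound P X hX n s q h]
  | none =>
    unfold tbl at h
    simp only [seg_len, bval_bits, if_pos h1] at h
    exact absurd h (by simp)

/-- any sequence of pairs, on the oracles which contain the table of the sequence -/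
theorem fiber {i j : Code} (hp : Pair i j) (P : ℕ → Code × Code) {G : (ℕ → Bool) → ℕ → Bool}
    {D : Set (ℕ → Bool)} (hD : Inv D) {k : ℕ} (h1 : FlipSuff G D k) (h2 : ItSuff i j G D k 1) :
    ∃ c : ℕ, ∀ n : ℕ, ∃ L : Finset Code, L.card ≤ c * (n + 1) ^ (28 * (k + 1)) ∧
      ∀ X ∈ D, ∀ Y, (∀ m, X (2 * m) = tb P m) → (∀ m, Y (2 * m) = tb P m) →
        Red (P n).1 X Y → Red (P n).2 Y X → ∃ l ∈ L, Red l (G X) (G Y) := by
  obtain ⟨a, ha⟩ := exists_univ_o (fun p => (tbl p).map Prod.fst)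
    (Computable.option_map tbl_comp (Computable.fst.comp Computable.snd))
  obtain ⟨b, hb⟩ := exists_univ_o (fun p => (tbl p).map Prod.snd)
    (Computable.option_map tbl_comp (Computable.snd.comp Computable.snd))
  obtain ⟨c, hc⟩ := expo_gen hp hD h1 h2 a b
  refine ⟨c * 2 ^ (28 * (k + 1)), fun n => ?_⟩
  obtain ⟨L, hL, hL'⟩ := hc (Nat.bits n) (fun X Y => (∀ m, X (2 * m) = tb P m) ∧
    (∀ m, Y (2 * m) = tb P m) ∧ Red (P n).1 X Y ∧ Red (P n).2 Y X) fun X Y h => by
      obtain ⟨g1, g2, g3, g4⟩ := h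
      refine ⟨⟨(le_iff _ _).2 ⟨_, g4⟩, (le_iff _ _).2 ⟨_, g3⟩⟩, ?_, ?_⟩
      · refine ha (Nat.bits n) (P n).1 X Y (fun s i' h => ?_) ⟨2 * Nat.pair n (encode (P n)) + 1,
          fun s hs => ?_⟩ g3
        · obtain ⟨q, h5, h6⟩ := Option.map_eq_some_iff.1 h
          rw [← h6, tbl_sound P X g1 n s q h5]
        · rw [tbl_complete P X g1 n s (by omega)]
          rfl
      · refine hb (Nat.bits n) (P n).2 Y X (fun s i' h => ?_) ⟨2 * Nat.pair n (encode (P n)) + 1,
          fun s hs => ?_⟩ g4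
        · obtain ⟨q, h5, h6⟩ := Option.map_eq_some_iff.1 h
          rw [← h6, tbl_sound P Y g2 n s q h5]
        · rw [tbl_complete P Y g2 n s (by omega)]
          rfl
  refine ⟨L, hL.trans ?_, fun X hX Y g1 g2 g3 g4 => hL' X hX Y ⟨g1, g2, g3, g4⟩⟩
  rw [mul_assoc]
  exact Nat.mul_le_mul_left _ (pow_bits k n)

end Pool.Agent.H16R.TR
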