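import Pool.Agent.Y579.PP.Unif

/-!
The number of changes of the first digit and of iterates of the pair which connect two oracles of the
same degree.
-/

set_option autoImplicit false

namespace Pool.Agent.H16R.TR

open Nat.Partrec (Code)
open Encodable
open Pool.Agent.H639.LU Pool.Agent.H869R3.FN Pool.Agent.Y579.PP
open Pool.Agent.Helper446.Defs Pool.Agent.Helper446.Oracle

/-- `Y` is obtained from `X` by `n` steps of the pair of programs `(i, j)`. -/
def It (i j : Code) : ℕ → (ℕ → Bool) → (ℕ → Bool) → Prop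
  | 0, X, Y => X = Y
  | n + 1, X, Y => ∃ Z, It i j n X Z ∧ Red i Z Y ∧ Red j Y Z

theorem It.one {i j : Code} {X Y : ℕ → Bool} (h1 : Red i X Y) (h2 : Red j Y X) : It i j 1 X Y :=
  ⟨X, rfl, h1, h2⟩

theorem It.le {i j : Code} {n : ℕ} {X Y : ℕ → Bool} (h : It i j n X Y) : le X Y ∧ le Y X := by
  induction n generalizing Y with
  | zero =>
    have h' : X = Y := h
    subst h'
    exact ⟨le_refl' _, le_refl' _⟩
  | succ n ih =>
    obtain ⟨Z, h1, h2, h3⟩ := h
    obtain ⟨h4, h5⟩ := ih h1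
    exact ⟨le_trans' h4 ((le_iff _ _).2 ⟨j, h3⟩), le_trans' ((le_iff _ _).2 ⟨i, h2⟩) h5⟩

/-- Families of relations with a cost: the changes of the first digit and the iterates of the pair
whose length is in `A` cost `1`. -/
structure Cs (i j : Code) (A : Set ℕ) {α : Type} (R : ℕ → (α → ℕ → Bool) → (α → ℕ → Bool) → Prop) :
    Prop where
  refl : ∀ f, R 0 f f
  mono : ∀ m m' f g, m ≤ m' → R m f g → R m' f g
  symm : ∀ m f g, R m f g → R m g f
  trans : ∀ m m' f g h, R m f g → R m' g h → R (m + m') f h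
  flp : ∀ f, R 1 f fun a => flip (f a)
  it : ∀ n ∈ A, ∀ f g, (∀ a, It i j n (f a) (g a)) → R 1 f g

section
variable {i j : Code} {A : Set ℕ} {α : Type} {R : ℕ → (α → ℕ → Bool) → (α → ℕ → Bool) → Prop}

theorem Cs.pr (h : Cs i j A R) (hN : 1 ∈ A) (f g : α → ℕ → Bool) (h1 : ∀ a, Red i (f a) (g a))
    (h2 : ∀ a, Red j (g a) (f a)) : R 1 f g :=
  h.it 1 hN f g fun a => It.one (h1 a) (h2 a)

theorem Cs.sw (h : Cs i j A R) (b b' : Bool) (Z : α → ℕ → Bool) :
    R 1 (fun a => cns b (Z a)) fun a => cns b' (Z a) := by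
  by_cases hb : b = b'
  · subst hb
    exact h.mono 0 1 _ _ (by omega) (h.refl _)
  · have h1 := h.flp fun a => cns b (Z a)
    simp only [flip_cns] at h1
    have h2 : ∀ b b' : Bool, ¬ b = b' → (!b) = b' := by decide
    rwa [h2 b b' hb] at h1

theorem Cs.ins0 (h : Cs i j A R) (hN : 1 ∈ A) (hp : Pair i j) (b b' : Bool) (Z : α → ℕ → Bool) :
    R 3 (fun a => cns b (Z a)) fun a => cns b' (cns false (Z a)) := by
  have h1 := h.sw b true Z
  have h2 := h.pr hN (fun a => cns true (Z a)) (fun a => cns true (cns false (Z a)))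
    (fun a => hp.a _) fun a => hp.a' _
  have h3 := h.sw true b' fun a => cns false (Z a)
  exact h.trans _ _ _ _ _ (h.trans _ _ _ _ _ h1 h2) h3

theorem Cs.ins1 (h : Cs i j A R) (hN : 1 ∈ A) (hp : Pair i j) (b b' : Bool) (Z : α → ℕ → Bool) :
    R 7 (fun a => cns b (Z a)) fun a => cns b' (cns true (Z a)) := by
  have h1 := h.sw b true Z
  have h2 := h.pr hN (fun a => cns true (Z a)) (fun a => cns true (cns false (Z a)))
    (fun a => hp.a _) fun a => hp.a' _
  have h3 := h.sw true false fun a => cns false (Z a)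
  have h4 := h.pr hN (fun a => cns false (cns false (Z a)))
    (fun a => cns false (cns false (cns true (Z a)))) (fun a => hp.b _) fun a => hp.b' _
  have h5 := h.sw false true fun a => cns false (cns true (Z a))
  have h6 := h.symm _ _ _ (h.pr hN (fun a => cns true (cns true (Z a)))
    (fun a => cns true (cns false (cns true (Z a)))) (fun a => hp.a _) fun a => hp.a' _)
  have h7 := h.sw true b' fun a => cns true (Z a)
  have t1 := h.trans _ _ _ _ _ (h.trans _ _ _ _ _ h1 h2) h3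
  have t2 := h.trans _ _ _ _ _ (h.trans _ _ _ _ _ t1 h4) h5
  exact h.trans _ _ _ _ _ (h.trans _ _ _ _ _ t2 h6) h7

theorem Cs.ins (h : Cs i j A R) (hN : 1 ∈ A) (hp : Pair i j) (b b' β : Bool)
    (Z : α → ℕ → Bool) : R 7 (fun a => cns b (Z a)) fun a => cns b' (cns β (Z a)) := by
  cases β
  · exact h.mono 3 7 _ _ (by omega) (h.ins0 hN hp b b' Z)
  · exact h.ins1 hN hp b b' Z

/-- a digit in front -/
theorem Cs.front (h : Cs i j A R) (hN : 1 ∈ A) (hp : Pair i j) (b β : Bool) (f : α → ℕ → Bool)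
    (hf : ∀ a, f a 0 = b) : R 7 f fun a => cns β (f a) := by
  have h2 := h.ins hN hp b β b fun a => tl (f a)
  have e : (fun a => cns b (tl (f a))) = f := by
    funext a
    rw [← hf a, cns_tl]
  have e' : (fun a => cns β (cns b (tl (f a)))) = fun a => cns β (f a) := by
    funext a
    rw [← hf a, cns_tl]
  rwa [e, e'] at h2

theorem it_run (hp : Pair i j) (X : ℕ → Bool) (k : ℕ) :
    It i j k (cns true (pf 0 X)) (cns true (pf k X)) := by
  induction k with
  | zero => rfl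
  | succ k ih =>
    rw [pf_succ]
    exact ⟨_, ih, hp.a _, hp.a' _⟩

theorem Cs.label (h : Cs i j A R) (hN : 1 ∈ A) (hp : Pair i j) (b : Bool) (k : ℕ) (hk : k ∈ A)
    (f : α → ℕ → Bool) (hf : ∀ a, f a 0 = b) :
    R 22 f fun a => cns false (cns true (pf k (f a))) := by
  have h1 : R 7 f fun a => cns true (f a) := h.front hN hp b true f hf
  have h2 : R 7 (fun a => cns true (f a)) fun a => cns true (pf 0 (f a)) := by
    have h3 := h.ins1 hN hp true true f
    simp only [pf_zero]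
    exact h3
  have h4 : R 1 (fun a => cns true (pf 0 (f a))) fun a => cns true (pf k (f a)) :=
    h.it k hk _ _ fun a => it_run hp (f a) k
  have h5 := h.ins1 hN hp true false fun a => pf k (f a)
  exact h.trans _ _ _ _ _ (h.trans _ _ _ _ _ (h.trans _ _ _ _ _ h1 h2) h4) h5

theorem Cs.half (h : Cs i j A R) (hN : 1 ∈ A) (hp : Pair i j) (b b' : Bool) (k : ℕ) (hk : k ∈ A)
    (f g : α → ℕ → Bool) (hf : ∀ a, f a 0 = b) (hg : ∀ a, jn k (f a) (g a) 0 = b')
    (hc : ∀ a, Red (Denumerable.ofNat Code (k / 2)) (f a) (g a)) :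
    R 45 f fun a => jn k (f a) (g a) := by
  have h1 := h.label hN hp b k hk f hf
  have h2 := h.pr hN (fun a => cns false (cns true (pf k (f a))))
    (fun a => cns false (cns true (pf k (jn k (f a) (g a))))) (fun a => hp.u k _ _ (hc a))
    fun a => hp.u' k _ _
  have h3 := h.symm _ _ _ (h.label hN hp b' k hk (fun a => jn k (f a) (g a)) hg)
  exact h.trans _ _ _ _ _ (h.trans _ _ _ _ _ h1 h2) h3

theorem Cs.main (h : Cs i j A R) (hp : Pair i j) (b b' : Bool) (c d : Code) (hN : 1 ∈ A)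
    (hc' : 2 * encode c ∈ A) (hd' : 2 * encode d + 1 ∈ A) (f g : α → ℕ → Bool)
    (hf : ∀ a, f a 0 = b) (hg : ∀ a, g a 0 = b') (hc : ∀ a, Red c (f a) (g a))
    (hd : ∀ a, Red d (g a) (f a)) : R 90 f g := by
  have e1 : Denumerable.ofNat Code (2 * encode c / 2) = c := by
    rw [Nat.mul_div_cancel_left _ (by norm_num), Denumerable.ofNat_encode]
  have e2 : Denumerable.ofNat Code ((2 * encode d + 1) / 2) = d := by
    rw [show (2 * encode d + 1) / 2 = encode d by omega, Denumerable.ofNat_encode]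
  have e3 : ∀ a, jn (2 * encode d + 1) (g a) (f a) = jn (2 * encode c) (f a) (g a) := by
    intro a
    funext n
    unfold jn
    rcases Nat.mod_two_eq_zero_or_one n with hn | hn
    · rw [if_neg (by omega), if_pos (by omega)]
    · rw [if_pos (by omega), if_neg (by omega)]
  have e4 : ∀ a, jn (2 * encode c) (f a) (g a) 0 = b := by
    intro a
    rw [← hf a]
    unfold jn
    rw [if_pos (by omega)]
  have h1 := h.half hN hp b b (2 * encode c) hc' f g hf e4 fun a => by rw [e1]; exact hc a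
  have h2 := h.half hN hp b' b (2 * encode d + 1) hd' g f hg (fun a => by rw [e3]; exact e4 a)
    fun a => by rw [e2]; exact hd a
  simp only [e3] at h2
  exact h.trans _ _ _ _ _ h1 (h.symm _ _ _ h2)

end

/-- at most `n` programs suffice for the reductions of `G (g a)` to `G (f a)` -/
def Few (G : (ℕ → Bool) → ℕ → Bool) {α : Type} (n : ℕ) (f g : α → ℕ → Bool) : Prop :=
  ∃ L : Finset Code, L.card ≤ n ∧ ∀ a, ∃ l ∈ L, Red l (G (f a)) (G (g a))

section
variable {G : (ℕ → Bool) → ℕ → Bool} {α : Type}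

theorem Few.refl (f : α → ℕ → Bool) : Few G 1 f f := by
  obtain ⟨d, hd⟩ := exists_id
  exact ⟨{d}, by simp, fun a => ⟨d, by simp, hd _⟩⟩

theorem Few.mono {n m : ℕ} {f g : α → ℕ → Bool} (h : Few G n f g) (hnm : n ≤ m) : Few G m f g := by
  obtain ⟨L, h1, h2⟩ := h
  exact ⟨L, h1.trans hnm, h2⟩

theorem Few.trans {n m : ℕ} {f g k : α → ℕ → Bool} (h : Few G n f g) (h' : Few G m g k) :
    Few G (n * m) f k := by
  classical
  obtain ⟨κ, -, hκ⟩ := K7
  obtain ⟨L, h1, h2⟩ := h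
  obtain ⟨L', h1', h2'⟩ := h'
  refine ⟨(L ×ˢ L').image κ, ?_, fun a => ?_⟩
  · refine Finset.card_image_le.trans ?_
    rw [Finset.card_product]
    exact Nat.mul_le_mul h1 h1'
  · obtain ⟨l, hl, hl2⟩ := h2 a
    obtain ⟨l', hl', hl2'⟩ := h2' a
    exact ⟨κ (l, l'), Finset.mem_image.2 ⟨(l, l'), Finset.mem_product.2 ⟨hl, hl'⟩, rfl⟩,
      hκ _ _ _ _ _ hl2 hl2'⟩

/-- `k` programs suffice for the changes of the first digit, for the oracles in `D` -/
def FlipSuff (G : (ℕ → Bool) → ℕ → Bool) (D : Set (ℕ → Bool)) (k : ℕ) : Prop :=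
  ∃ L : Finset Code, L.card ≤ k ∧ ∀ X ∈ D, ∃ l ∈ L, Red l (G X) (G (flip X))

/-- `k` programs suffice for the `n`-th iterate of the pair, in both directions, for the oracles
in `D` -/
def ItSuff (i j : Code) (G : (ℕ → Bool) → ℕ → Bool) (D : Set (ℕ → Bool)) (k n : ℕ) : Prop :=
  ∃ L : Finset Code, L.card ≤ k ∧ ∀ X ∈ D, ∀ Y, It i j n X Y →
    (∃ l ∈ L, Red l (G X) (G Y)) ∧ ∃ l ∈ L, Red l (G Y) (G X)

/-- closed under Turing equivalence -/
def Inv (D : Set (ℕ → Bool)) : Prop := ∀ X ∈ D, ∀ Y, le X Y → le Y X → Y ∈ D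

theorem cs_few {i j : Code} {A : Set ℕ} {D : Set (ℕ → Bool)} (hD : Inv D) {K : ℕ} (hK : 1 ≤ K)
    (h1 : FlipSuff G D K) (h2 : ∀ n ∈ A, ItSuff i j G D K n) :
    Cs i j A (α := α) fun m f g =>
      (∀ a, le (f a) (g a) ∧ le (g a) (f a)) ∧
        ((∀ a, f a ∈ D) → Few G (K ^ m) f g ∧ Few G (K ^ m) g f) where
  refl f := ⟨fun _ => ⟨le_refl' _, le_refl' _⟩, fun _ => by
    rw [pow_zero]
    exact ⟨Few.refl f, Few.refl f⟩⟩
  mono m m' f g hm h := ⟨h.1, fun hz => by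
    have hK : K ^ m ≤ K ^ m' := Nat.pow_le_pow_right hK hm
    exact ⟨(h.2 hz).1.mono hK, (h.2 hz).2.mono hK⟩⟩
  symm m f g hm := ⟨fun a => (hm.1 a).symm, fun hz =>
    (hm.2 fun a => hD _ (hz a) _ (hm.1 a).2 (hm.1 a).1).symm⟩
  trans m m' f g k h1 h2 := ⟨fun a => ⟨le_trans' (h1.1 a).1 (h2.1 a).1,
    le_trans' (h2.1 a).2 (h1.1 a).2⟩, fun hz => by
      have hz' : ∀ a, g a ∈ D := fun a => hD _ (hz a) _ (h1.1 a).1 (h1.1 a).2
      refine ⟨?_, ?_⟩
      · rw [pow_add]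
        exact (h1.2 hz).1.trans (h2.2 hz').1
      · rw [pow_add, mul_comm]
        exact (h2.2 hz').2.trans (h1.2 hz).2⟩
  flp f := by
    have hle : ∀ a, le (f a) (flip (f a)) ∧ le (flip (f a)) (f a) := fun a =>
      step_le (i := i) (j := j) (Or.inl rfl)
    refine ⟨hle, fun hz => ?_⟩
    rw [pow_one]
    obtain ⟨A, hA, hA'⟩ := h1
    refine ⟨⟨A, hA, fun a => hA' _ (hz a)⟩, ⟨A, hA, fun a => ?_⟩⟩
    have h1 := hA' (flip (f a)) (hD _ (hz a) _ (hle a).1 (hle a).2)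
    rwa [Pool.Agent.Y579.PP.flip_flip] at h1
  it n hn f g h := by
    refine ⟨fun a => (h a).le, fun hz => ?_⟩
    rw [pow_one]
    obtain ⟨A, hA, hA'⟩ := h2 n hn
    exact ⟨⟨A, hA, fun a => (hA' _ (hz a) _ (h a)).1⟩, ⟨A, hA, fun a => (hA' _ (hz a) _ (h a)).2⟩⟩

/-- few programs for the flips and for the iterates give few programs for every pair -/
theorem few_pair {i j : Code} (hp : Pair i j) {A : Set ℕ} {D : Set (ℕ → Bool)} (hD : Inv D) {K : ℕ}
    (hK : 1 ≤ K) (h1 : FlipSuff G D K) (h2 : ∀ n ∈ A, ItSuff i j G D K n) (i' j' : Code)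
    (hN : 1 ∈ A) (hi : 2 * encode i' ∈ A) (hj : 2 * encode j' + 1 ∈ A) :
    ∃ L : Finset Code, L.card ≤ 4 * K ^ 90 ∧ ∀ X ∈ D, ∀ Y, Red i' X Y → Red j' Y X →
      ∃ l ∈ L, Red l (G X) (G Y) := by
  classical
  have key : ∀ q : Bool × Bool, ∃ L : Finset Code, L.card ≤ K ^ 90 ∧ ∀ X Y : ℕ → Bool,
      X ∈ D → Red i' X Y → Red j' Y X → X 0 = q.1 → Y 0 = q.2 →
        ∃ l ∈ L, Red l (G X) (G Y) := by
    intro q
    let α := {p : (ℕ → Bool) × (ℕ → Bool) // p.1 ∈ D ∧ Red i' p.1 p.2 ∧ Red j' p.2 p.1 ∧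
      p.1 0 = q.1 ∧ p.2 0 = q.2}
    obtain ⟨-, h3⟩ := (cs_few (α := α) hD hK h1 h2).main hp q.1 q.2 i' j' hN hi hj
      (fun a => a.1.1) (fun a => a.1.2)
      (fun a => a.2.2.2.2.1) (fun a => a.2.2.2.2.2) (fun a => a.2.2.1) fun a => a.2.2.2.1
    obtain ⟨⟨L, h2, h3⟩, -⟩ := h3 fun a => a.2.1
    exact ⟨L, h2, fun X Y hX h4 h5 h6 h7 => h3 ⟨(X, Y), hX, h4, h5, h6, h7⟩⟩
  choose L hL1 hL2 using key
  refine ⟨Finset.univ.biUnion L, ?_, fun X hX Y h2 h3 => ?_⟩
  · refine Finset.card_biUnion_le.trans ?_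
    refine (Finset.sum_le_sum fun q _ => hL1 q).trans ?_
    simp
  · obtain ⟨l, hl, hl'⟩ := hL2 (X 0, Y 0) X Y hX h2 h3 rfl rfl
    exact ⟨l, Finset.mem_biUnion.2 ⟨_, Finset.mem_univ _, hl⟩, hl'⟩

end

end Pool.Agent.H16R.TR
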