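import Pool.Agent.H16R.TR.Two
import Pool.Agent.R616.DI.Red

/-!
Words in front of the oracle, and the universal program which reads a word.
-/

set_option autoImplicit false

namespace Pool.Agent.H16R.TR

open Nat.Partrec (Code)
open Nat.Partrec.Code (evaln)
open Encodable
open Pool.Agent.H639.LU Pool.Agent.H869R3.FN Pool.Agent.Y579.PP Pool.Agent.R616.DI
open Pool.Agent.Helper446.Defs Pool.Agent.Helper446.Oracle

/-- the word `w` and the sequence `X`: the digits are `1 w₀ 1 w₁ … 1 wₙ 0 X₀ X₁ …` -/
def wc : Str → (ℕ → Bool) → ℕ → Bool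
  | [], X => cns false X
  | b :: w, X => cns true (cns b (wc w X))

theorem wc_even (w : Str) (X : ℕ → Bool) (k : ℕ) (hk : k < w.length) : wc w X (2 * k) = true := by
  induction w generalizing k with
  | nil => simp at hk
  | cons b w ih =>
    cases k with
    | zero => rfl
    | succ k =>
      show cns true (cns b (wc w X)) (2 * k + 1 + 1) = true
      rw [cns_succ, cns_succ]
      exact ih k (by simpa using hk)

theorem wc_end (w : Str) (X : ℕ → Bool) : wc w X (2 * w.length) = false := by
  induction w with
  | nil => rfl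
  | cons b w ih =>
    show cns true (cns b (wc w X)) (2 * w.length + 1 + 1) = false
    rw [cns_succ, cns_succ]
    exact ih

theorem wc_odd (w : Str) (X : ℕ → Bool) (k : ℕ) (hk : k < w.length) :
    wc w X (2 * k + 1) = w.getD k false := by
  induction w generalizing k with
  | nil => simp at hk
  | cons b w ih =>
    cases k with
    | zero => rfl
    | succ k =>
      show cns true (cns b (wc w X)) (2 * k + 1 + 1 + 1) = (b :: w).getD (k + 1) false
      rw [cns_succ, cns_succ, ih k (by simpa using hk), List.getD_cons_succ]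

theorem wc_tail (w : Str) (X : ℕ → Bool) (m : ℕ) : wc w X (2 * w.length + 1 + m) = X m := by
  induction w with
  | nil =>
    show cns false X (2 * 0 + 1 + m) = X m
    rw [show 2 * 0 + 1 + m = m + 1 by omega, cns_succ]
  | cons b w ih =>
    show cns true (cns b (wc w X)) (2 * (w.length + 1) + 1 + m) = X m
    rw [show 2 * (w.length + 1) + 1 + m = 2 * w.length + 1 + m + 1 + 1 by omega, cns_succ, cns_succ,
      ih]

theorem wc_head (w : Str) (X Y : ℕ → Bool) (m : ℕ) (hm : m < 2 * w.length + 1) :
    wc w X m = wc w Y m := by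
  rcases Nat.even_or_odd' m with ⟨k, rfl | rfl⟩
  · rcases Nat.lt_or_ge k w.length with h | h
    · rw [wc_even w X k h, wc_even w Y k h]
    · have : k = w.length := by omega
      rw [this, wc_end, wc_end]
  · rw [wc_odd w X k (by omega), wc_odd w Y k (by omega)]

/-- the length of the word -/
def wn (σ : Str) : ℕ := (List.range σ.length).findIdx (fun k => !(σ.getD (2 * k) true))

/-- the word -/
def ww (σ : Str) : Str := (List.range (wn σ)).map (fun k => σ.getD (2 * k + 1) false)

theorem wn_prim : Primrec wn := by
  refine Primrec.list_findIdx (Primrec.list_range.comp Primrec.list_length) ?_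
  exact Primrec.not.comp ((Primrec.list_getD true).comp Primrec.fst
    (Primrec.nat_mul.comp (Primrec.const 2) Primrec.snd))

theorem ww_prim : Primrec ww := by
  refine Primrec.list_map (Primrec.list_range.comp wn_prim) ?_
  exact (Primrec.list_getD false).comp Primrec.fst
    (Primrec.nat_add.comp (Primrec.nat_mul.comp (Primrec.const 2) Primrec.snd) (Primrec.const 1))

theorem getD_seg' (X : ℕ → Bool) (s n : ℕ) (b : Bool) :
    (seg X s).getD n b = if n < s then X n else b := by
  rw [List.getD_eq_getElem?_getD, seg_get]
  by_cases h : n < s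
  · rw [if_pos h, if_pos h]
    rfl
  · rw [if_neg h, if_neg h]
    rfl

theorem wn_long (w : Str) (X : ℕ → Bool) {s : ℕ} (hs : 2 * w.length < s) :
    wn (seg (wc w X) s) = w.length := by
  unfold wn
  rw [seg_len]
  have hlt : w.length < (List.range s).length := by
    rw [List.length_range]
    omega
  rw [List.findIdx_eq hlt]
  refine ⟨?_, fun k hk => ?_⟩
  · rw [List.getElem_range, getD_seg', if_pos hs, wc_end]
    rfl
  · rw [List.getElem_range, getD_seg', if_pos (by omega), wc_even w X k hk]
    rfl

theorem wn_short (w : Str) (X : ℕ → Bool) {s : ℕ} (hs : s ≤ 2 * w.length) :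
    wn (seg (wc w X) s) = s := by
  unfold wn
  rw [seg_len]
  have h : (List.range s).findIdx (fun k => !((seg (wc w X) s).getD (2 * k) true)) =
      (List.range s).length := by
    rw [List.findIdx_eq_length]
    intro k _
    rw [getD_seg']
    by_cases h2 : 2 * k < s
    · rw [if_pos h2, wc_even w X k (by omega)]
      rfl
    · rw [if_neg h2]
      rfl
  rw [h, List.length_range]

theorem ww_long (w : Str) (X : ℕ → Bool) {s : ℕ} (hs : 2 * w.length < s) :
    ww (seg (wc w X) s) = w := by
  unfold ww
  rw [wn_long w X hs]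
  apply List.ext_getElem
  · simp
  · intro k h1 h2
    rw [List.getElem_map, List.getElem_range, getD_seg', if_pos (by omega), wc_odd w X k h2,
      List.getD_eq_getElem?_getD, List.getElem?_eq_getElem h2]
    rfl

theorem drop_seg_wc (w : Str) (X : ℕ → Bool) (s : ℕ) :
    (seg (wc w X) s).drop (2 * w.length + 1) = seg X (s - (2 * w.length + 1)) := by
  apply List.ext_getElem?
  intro n
  rw [List.getElem?_drop, seg_get, seg_get]
  by_cases h : n < s - (2 * w.length + 1)
  · rw [if_pos h, if_pos (by omega), wc_tail]
  · rw [if_neg h, if_neg (by omega)]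

/-- the universal program which reads a word and the oracle after it -/
theorem exists_univ_o (ψ : Str × Str → Option Code) (hψ : Computable ψ) :
    ∃ c : Code, ∀ (w : Str) (i : Code) (X Y : ℕ → Bool),
      (∀ s i', ψ (w, seg X s) = some i' → i' = i) → (∃ t, ∀ s ≥ t, ψ (w, seg X s) = some i) →
      Red i X Y → Red c (wc w X) (wc w Y) := by
  obtain ⟨n1, n2, n3⟩ := N1
  -- the program
  have e0 : Computable (fun p : ℕ × Str => wn p.2) := wn_prim.to_comp.comp Computable.snd
  have e1 : Computable (fun p : ℕ × Str => decide (wn p.2 < p.2.length)) :=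
    (Primrec.nat_lt.decide.to_comp).comp e0 (Computable.list_length.comp Computable.snd)
  have e2 : Computable (fun p : ℕ × Str => decide (p.1 < 2 * wn p.2 + 1)) :=
    (Primrec.nat_lt.decide.to_comp).comp Computable.fst
      ((Primrec.nat_add.comp (Primrec.nat_mul.comp (Primrec.const 2) Primrec.id)
        (Primrec.const 1)).to_comp.comp e0)
  have e3 : Computable (fun p : ℕ × Str => (p.2.getD p.1 false).toNat) :=
    ((Primrec.dom_finite (fun b : Bool => b.toNat)).comp
      ((Primrec.list_getD false).comp Primrec.snd Primrec.fst)).to_comp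
  have e4 : Computable (fun p : ℕ × Str => p.2.drop (2 * wn p.2 + 1)) :=
    (Primrec.list_drop.to_comp).comp ((Primrec.nat_add.comp (Primrec.nat_mul.comp
      (Primrec.const 2) Primrec.id) (Primrec.const 1)).to_comp.comp e0) Computable.snd
  have e5 : Computable (fun p : ℕ × Str => p.1 - (2 * wn p.2 + 1)) :=
    (Primrec.nat_sub.to_comp).comp Computable.fst
      ((Primrec.nat_add.comp (Primrec.nat_mul.comp (Primrec.const 2) Primrec.id)
        (Primrec.const 1)).to_comp.comp e0)
  have e6 : Computable (fun q : (ℕ × Str) × Code =>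
      nxtv q.2 (q.1.2.drop (2 * wn q.1.2 + 1)) (q.1.1 - (2 * wn q.1.2 + 1))) :=
    c1.1.comp (f := fun p : Code × Str × ℕ => nxtv p.1 p.2.1 p.2.2)
      (g := fun q : (ℕ × Str) × Code =>
        (q.2, q.1.2.drop (2 * wn q.1.2 + 1), q.1.1 - (2 * wn q.1.2 + 1)))
      (Computable.snd.pair ((e4.comp Computable.fst).pair (e5.comp Computable.fst)))
  have e8 : Computable (fun p : ℕ × Str => ψ (ww p.2, p.2.drop (2 * wn p.2 + 1))) :=
    hψ.comp ((ww_prim.to_comp.comp Computable.snd).pair e4)
  have e7 : Computable (fun p : ℕ × Str => (ψ (ww p.2, p.2.drop (2 * wn p.2 + 1))).bind fun i =>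
      bif decide (p.1 < 2 * wn p.2 + 1) then some (p.2.getD p.1 false).toNat else
        nxtv i (p.2.drop (2 * wn p.2 + 1)) (p.1 - (2 * wn p.2 + 1))) := by
    refine Computable.option_bind (f := fun p : ℕ × Str => ψ (ww p.2, p.2.drop (2 * wn p.2 + 1)))
      (g := fun (p : ℕ × Str) (i : Code) =>
        bif decide (p.1 < 2 * wn p.2 + 1) then some (p.2.getD p.1 false).toNat else
        nxtv i (p.2.drop (2 * wn p.2 + 1)) (p.1 - (2 * wn p.2 + 1)))
      e8 ?_
    exact Computable.cond (e2.comp Computable.fst)
      (Computable.option_some.comp (e3.comp Computable.fst)) e6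
  obtain ⟨c, hc⟩ := red_of_fun (Computable.cond e1 e7 (Computable.const none))
  refine ⟨c, fun w i X Y hψ1 hψ2 hXY => ?_⟩
  rw [hc]
  intro m v
  have key : ∀ s, (bif decide (wn (seg (wc w X) s) < (seg (wc w X) s).length) then
      (ψ (ww (seg (wc w X) s), (seg (wc w X) s).drop (2 * wn (seg (wc w X) s) + 1))).bind fun i =>
      bif decide (m < 2 * wn (seg (wc w X) s) + 1) then some ((seg (wc w X) s).getD m false).toNat
      else nxtv i ((seg (wc w X) s).drop (2 * wn (seg (wc w X) s) + 1))
        (m - (2 * wn (seg (wc w X) s) + 1)) else none) =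
      if 2 * w.length < s then (ψ (w, seg X (s - (2 * w.length + 1)))).bind fun i =>
        if m < 2 * w.length + 1 then some ((wc w Y m).toNat) else
          nxtv i (seg X (s - (2 * w.length + 1))) (m - (2 * w.length + 1)) else none := by
    intro s
    by_cases hs : 2 * w.length < s
    · rw [if_pos hs, wn_long w X hs, ww_long w X hs, seg_len,
        decide_eq_true (by omega : w.length < s), cond_true, drop_seg_wc]
      congr 1
      funext i'
      by_cases hm : m < 2 * w.length + 1
      · rw [decide_eq_true hm, cond_true, if_pos hm, getD_seg', if_pos (by omega),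
          wc_head w X Y m hm]
      · rw [decide_eq_false hm, cond_false, if_neg hm]
    · rw [if_neg hs, wn_short w X (by omega), seg_len, decide_eq_false (by omega), cond_false]
  simp only [key]
  obtain ⟨t, ht⟩ := hψ2
  by_cases hm : m < 2 * w.length + 1
  · simp only [if_pos hm]
    constructor
    · rintro ⟨s, hs⟩
      by_cases h1 : 2 * w.length < s
      · rw [if_pos h1, Option.bind_eq_some_iff] at hs
        obtain ⟨_, -, h2⟩ := hs
        exact (Option.some_inj.1 h2).symm
      · rw [if_neg h1] at hs
        exact absurd hs (by simp)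
    · rintro rfl
      refine ⟨t + (2 * w.length + 1), ?_⟩
      rw [if_pos (by omega), ht _ (by omega)]
      rfl
  · simp only [if_neg hm]
    have e : wc w Y m = Y (m - (2 * w.length + 1)) := by
      have := wc_tail w Y (m - (2 * w.length + 1))
      rwa [show 2 * w.length + 1 + (m - (2 * w.length + 1)) = m by omega] at this
    rw [e, ← red_nxtv hXY]
    constructor
    · rintro ⟨s, hs⟩
      by_cases h1 : 2 * w.length < s
      · rw [if_pos h1, Option.bind_eq_some_iff] at hs
        obtain ⟨i', h2, h3⟩ := hs
        rw [hψ1 _ i' h2] at h3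
        exact ⟨_, h3⟩
      · rw [if_neg h1] at hs
        exact absurd hs (by simp)
    · rintro ⟨s, hs⟩
      refine ⟨max t s + (2 * w.length + 1), ?_⟩
      rw [if_pos (by omega), ht _ (by omega)]
      show nxtv i (seg X (max t s + (2 * w.length + 1) - (2 * w.length + 1)))
        (m - (2 * w.length + 1)) = some v
      have h3 := n1 i (seg X s) (seg X (max t s + (2 * w.length + 1) - (2 * w.length + 1)))
        (m - (2 * w.length + 1)) (G2_seg_le X (by omega)) (by rw [hs]; rfl)
      obtain ⟨v', hv'⟩ := Option.isSome_iff_exists.1 h3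
      rw [hv', (red_nxtv hXY _ v').1 ⟨_, hv'⟩, (red_nxtv hXY _ v).1 ⟨s, hs⟩]

/-- the universal program which reads a word -/
theorem exists_univ_w (φ : Str →. Code) (hφ : Partrec φ) :
    ∃ c : Code, ∀ (w : Str) (i : Code), i ∈ φ w → ∀ X Y : ℕ → Bool, Red i X Y →
      Red c (wc w X) (wc w Y) := by
  obtain ⟨a, ha⟩ := Nat.Partrec.Code.exists_code.1 hφ
  -- the program found within the bound
  let ψ : Str × Str → Option Code := fun p =>
    ((evaln p.2.length a (encode p.1)).bind fun m => (decode m : Option Code))
  have hψ : Computable ψ := by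
    refine Computable.option_bind (f := fun p : Str × Str => evaln p.2.length a (encode p.1))
      (g := fun (_ : Str × Str) (m : ℕ) => (decode m : Option Code)) ?_ ?_
    · exact (Nat.Partrec.Code.primrec_evaln.comp (((Primrec.list_length.comp Primrec.snd).pair
        (Primrec.const a)).pair (Primrec.encode.comp Primrec.fst))).to_comp
    · exact (Primrec.decode.comp Primrec.snd).to_comp
  obtain ⟨c, hc⟩ := exists_univ_o ψ hψ
  refine ⟨c, fun w i hi X Y hXY => hc w i X Y (fun s i' h => ?_) ?_ hXY⟩
  · simp only [ψ, Option.bind_eq_some_iff] at h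
    obtain ⟨m, h1, h2⟩ := h
    have h3 := Nat.Partrec.Code.evaln_sound h1
    rw [ha] at h3
    simp only [encodek, Part.coe_some, Part.bind_some, Part.mem_map_iff] at h3
    obtain ⟨i'', h4, h5⟩ := h3
    rw [← h5, encodek] at h2
    rw [← Option.some_inj.1 h2]
    exact Part.mem_unique h4 hi
  · have h1 : encode i ∈ a.eval (encode w) := by
      rw [ha]
      simp only [encodek, Part.coe_some, Part.bind_some, Part.mem_map_iff]
      exact ⟨i, hi, rfl⟩
    obtain ⟨t, ht⟩ := Nat.Partrec.Code.evaln_complete.1 h1
    refine ⟨t, fun s hs => ?_⟩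
    simp only [ψ, Option.bind_eq_some_iff, seg_len]
    exact ⟨encode i, Nat.Partrec.Code.evaln_mono hs ht, encodek i⟩

end Pool.Agent.H16R.TR
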